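import Pool.Agent.Y476.NA.Stm

set_option autoImplicit false

/-! CL: sets of residues with well distributed translates. -/

namespace Pool.Agent.Y344.NA

open Finset
open Pool.Agent.Y476.NA

/-- the second moment method for translates -/
theorem second {R : Type} [AddCommGroup R] [Fintype R] [DecidableEq R] (A T : Finset R) (c : ℕ)
    (hc : ∀ s ∈ T, ∀ t ∈ T, s ≠ t →
      (univ.filter fun x => x ∈ A ∧ x + (s - t) ∈ A).card ≤ c) :
    (T.card * A.card) ^ 2 ≤ (univ.filter fun x => ¬ ∀ t ∈ T, x - t ∉ A).card *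
      (T.card * A.card + T.card ^ 2 * c) := by
  obtain ⟨N, hN⟩ : ∃ N : R → ℕ, ∀ x, N x = ∑ t ∈ T, if x - t ∈ A then 1 else 0 :=
    ⟨_, fun _ => rfl⟩
  have h1 : ∑ x, N x = T.card * A.card := by
    simp only [hN]
    rw [sum_comm]
    have : ∀ t ∈ T, ∑ x : R, (if x - t ∈ A then 1 else 0) = A.card := by
      intro t _
      rw [← Equiv.sum_comp (Equiv.addRight t)]
      simp
    rw [sum_congr rfl this, sum_const, smul_eq_mul]
  have h3 : ∀ s t : R, ∑ x : R, ((if x - s ∈ A then 1 else 0) * (if x - t ∈ A then 1 else 0)) =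
      (univ.filter fun x => x ∈ A ∧ x + (s - t) ∈ A).card := by
    intro s t
    rw [← Equiv.sum_comp (Equiv.addRight s), card_filter]
    refine sum_congr rfl fun x _ => ?_
    have e1 : (Equiv.addRight s) x - s = x := by simp
    have e2 : (Equiv.addRight s) x - t = x + (s - t) := by
      simp only [Equiv.coe_addRight]; abel
    rw [e1, e2]
    by_cases h : x ∈ A <;> by_cases h' : x + (s - t) ∈ A <;> simp [h, h']
  have h2 : ∑ x, N x ^ 2 ≤ T.card * A.card + T.card ^ 2 * c := by
    have e : ∑ x, N x ^ 2 = ∑ s ∈ T, ∑ t ∈ T,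
        (univ.filter fun x => x ∈ A ∧ x + (s - t) ∈ A).card := by
      simp only [hN, sq, sum_mul_sum]
      rw [sum_comm]
      refine sum_congr rfl fun s _ => ?_
      rw [sum_comm]
      exact sum_congr rfl fun t _ => h3 s t
    rw [e]
    have h4 : ∀ s ∈ T, ∑ t ∈ T, (univ.filter fun x => x ∈ A ∧ x + (s - t) ∈ A).card ≤
        A.card + T.card * c := by
      intro s hs
      calc ∑ t ∈ T, (univ.filter fun x => x ∈ A ∧ x + (s - t) ∈ A).card ≤
            ∑ t ∈ T, ((if s = t then A.card else 0) + c) := by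
            refine sum_le_sum fun t ht => ?_
            by_cases hst : s = t
            · rw [if_pos hst]
              refine le_trans ?_ (Nat.le_add_right _ _)
              refine card_le_card fun x hx => ?_
              exact (mem_filter.1 hx).2.1
            · rw [if_neg hst, zero_add]
              exact hc s hs t ht hst
        _ = A.card + T.card * c := by
            rw [sum_add_distrib, sum_ite_eq, if_pos hs, sum_const, smul_eq_mul]
    calc ∑ s ∈ T, ∑ t ∈ T, (univ.filter fun x => x ∈ A ∧ x + (s - t) ∈ A).card ≤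
          ∑ s ∈ T, (A.card + T.card * c) := sum_le_sum h4
      _ = _ := by rw [sum_const, smul_eq_mul]; ring
  have h5 : ∑ x, N x = ∑ x ∈ univ.filter (fun x => ¬ ∀ t ∈ T, x - t ∉ A), N x := by
    symm
    refine sum_subset (subset_univ _) fun x _ hx => ?_
    rw [mem_filter, not_and_not_right] at hx
    rw [hN]
    exact sum_eq_zero fun t ht => if_neg (hx (mem_univ _) t ht)
  have h6 : (T.card * A.card) ^ 2 =
      (∑ x ∈ univ.filter (fun x => ¬ ∀ t ∈ T, x - t ∉ A), N x) ^ 2 := by rw [← h1, h5]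
  rw [h6]
  refine sq_sum_le_card_mul_sum_sq.trans (Nat.mul_le_mul_left _ (le_trans ?_ h2))
  exact sum_le_sum_of_subset (subset_univ _)

variable {p : ℕ} [hp : Fact p.Prime]

instance : NeZero (p ^ 2) := ⟨pow_ne_zero 2 hp.out.ne_zero⟩

/-- the first digit -/
def U (x : ZMod (p ^ 2)) : ZMod p := (x.val : ZMod p)

/-- the second digit -/
def V (x : ZMod (p ^ 2)) : ZMod p := ((x.val / p : ℕ) : ZMod p)

/-- the carry -/
def ca (u t : ZMod p) : ZMod p := if p ≤ u.val + t.val then 1 else 0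

theorem U_add (x s : ZMod (p ^ 2)) : U (x + s) = U x + U s := by
  unfold U
  rw [ZMod.val_add, ← Nat.cast_add]
  rw [ZMod.natCast_eq_natCast_iff']
  exact Nat.mod_mod_of_dvd _ (dvd_pow_self p two_ne_zero)

theorem V_add (x s : ZMod (p ^ 2)) : V (x + s) = V x + V s + ca (U x) (U s) := by
  unfold V ca U
  have key : ∀ a : ℕ, a % p ^ 2 / p = a / p % p := fun a => by
    rw [sq, Nat.mod_mul_right_div_self]
  have h : (x + s).val / p = ((x.val + s.val) / p) % p := by
    rw [ZMod.val_add, key]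
  rw [h, ZMod.natCast_mod, Nat.add_div hp.out.pos, ZMod.val_natCast, ZMod.val_natCast]
  split_ifs <;> push_cast <;> ring

theorem UV_inj {x y : ZMod (p ^ 2)} (h1 : U x = U y) (h2 : V x = V y) : x = y := by
  unfold U at h1
  unfold V at h2
  rw [ZMod.natCast_eq_natCast_iff'] at h1 h2
  have hx := (ZMod.val_lt x).trans_eq (sq p)
  have hy := (ZMod.val_lt y).trans_eq (sq p)
  have hx' : x.val / p < p := Nat.div_lt_of_lt_mul hx
  have hy' : y.val / p < p := Nat.div_lt_of_lt_mul hy
  rw [Nat.mod_eq_of_lt hx', Nat.mod_eq_of_lt hy'] at h2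
  apply ZMod.val_injective
  calc x.val = p * (x.val / p) + x.val % p := (Nat.div_add_mod x.val p).symm
    _ = p * (y.val / p) + y.val % p := by rw [h1, h2]
    _ = y.val := Nat.div_add_mod y.val p

theorem UV_bij : Function.Bijective (fun x : ZMod (p ^ 2) => (U x, V x)) := by
  rw [Fintype.bijective_iff_injective_and_card]
  refine ⟨fun x y h => UV_inj (congrArg Prod.fst h) (congrArg Prod.snd h), ?_⟩
  rw [Fintype.card_prod, ZMod.card, ZMod.card, sq]

theorem sum_UV (F : ZMod p → ZMod p → ℕ) :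
    ∑ x : ZMod (p ^ 2), F (U x) (V x) = ∑ u, ∑ v, F u v := by
  rw [← Fintype.sum_prod_type']
  exact Fintype.sum_bijective _ UV_bij _ _ fun _ => rfl

/-- autocorrelation of an interval -/
def M (w : ℕ) (h : ZMod p) : ℕ := (univ.filter fun a : ZMod p => a.val < w ∧ (a + h).val < w).card

theorem card_W {w : ℕ} (hw : w ≤ p) : (univ.filter fun a : ZMod p => a.val < w).card = w := by
  have h : (univ.filter fun a : ZMod p => a.val < w).image ZMod.val = range w := by
    ext n
    rw [mem_image, mem_range]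
    constructor
    · rintro ⟨a, ha, rfl⟩
      exact (mem_filter.1 ha).2
    · intro hn
      have e : ((n : ℕ) : ZMod p).val = n := ZMod.val_natCast_of_lt (lt_of_lt_of_le hn hw)
      exact ⟨(n : ZMod p), mem_filter.2 ⟨mem_univ _, by rw [e]; exact hn⟩, e⟩
  rw [← card_image_of_injective _ (ZMod.val_injective p), h, card_range]

theorem M_succ (w : ℕ) (h : ZMod p) : M w (h + 1) ≤ M w h + 1 := by
  unfold M
  have hsub : (univ.filter fun a : ZMod p => a.val < w ∧ (a + (h + 1)).val < w) ⊆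
      (univ.filter fun a : ZMod p => a.val < w ∧ (a + h).val < w) ∪ {-(h + 1)} := by
    intro a ha
    obtain ⟨-, h1, h2⟩ := mem_filter.1 ha
    rw [mem_union, mem_singleton]
    by_cases h0 : a + (h + 1) = 0
    · right
      exact eq_neg_of_add_eq_zero_left h0
    · left
      refine mem_filter.2 ⟨mem_univ _, h1, ?_⟩
      have e : a + h = a + (h + 1) - 1 := by ring
      have h3 : (a + h).val = (a + (h + 1)).val - 1 := by
        have h4 : 0 < (a + (h + 1)).val := Nat.pos_of_ne_zero fun h5 => h0 ((ZMod.val_eq_zero _).1 h5)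
        have h5 : (((a + (h + 1)).val - 1 : ℕ) : ZMod p) = a + h := by
          rw [Nat.cast_sub h4, ZMod.natCast_zmod_val, Nat.cast_one, e]
        rw [← h5, ZMod.val_natCast_of_lt]
        have := ZMod.val_lt (a + (h + 1))
        omega
      omega
  refine (card_le_card hsub).trans ((card_union_le _ _).trans ?_)
  rw [card_singleton]

theorem sum_M {w : ℕ} (hw : w ≤ p) : ∑ h : ZMod p, M w h = w ^ 2 := by
  unfold M
  simp only [card_filter]
  rw [sum_comm]
  have h1 : ∀ a : ZMod p, ∑ h : ZMod p, (if a.val < w ∧ (a + h).val < w then 1 else 0) =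
      if a.val < w then w else 0 := by
    intro a
    by_cases ha : a.val < w
    · rw [if_pos ha]
      have e := Equiv.sum_comp (Equiv.addLeft a) (fun h : ZMod p => if h.val < w then 1 else 0)
      refine (sum_congr rfl fun h _ => ?_).trans (e.trans ?_)
      · simp only [Equiv.coe_addLeft]
        exact if_congr (by simp only [ha, true_and]) rfl rfl
      · rw [← card_filter, card_W hw]
    · rw [if_neg ha]
      exact sum_eq_zero fun h _ => if_neg fun h' => ha h'.1
  rw [sum_congr rfl fun a _ => h1 a, ← sum_filter, sum_const, card_W hw, smul_eq_mul, sq]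

theorem M_ca (w : ℕ) (h u t : ZMod p) : M w (h + ca u t) ≤ M w h + 1 := by
  unfold ca
  split_ifs
  · exact M_succ w h
  · rw [add_zero]; exact Nat.le_succ _

theorem two_ne (h2 : 2 < p) : (2 : ZMod p) ≠ 0 := by
  intro h
  have h3 : ((2 : ℕ) : ZMod p) = 0 := by exact_mod_cast h
  rw [ZMod.natCast_eq_zero_iff] at h3
  have := Nat.le_of_dvd two_pos h3
  omega

theorem bij_h (h2 : 2 < p) (r t : ZMod p) (ht : t ≠ 0) :
    Function.Bijective (fun u : ZMod p => r - 2 * u * t - t ^ 2) := by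
  rw [← Finite.injective_iff_bijective]
  intro u v h
  simp only [sub_left_inj, sub_right_inj] at h
  have h3 : (2 : ZMod p) * t * (u - v) = 0 := by linear_combination h
  rcases mul_eq_zero.1 h3 with h4 | h4
  · rcases mul_eq_zero.1 h4 with h5 | h5
    · exact absurd h5 (two_ne h2)
    · exact absurd h5 ht
  · exact sub_eq_zero.1 h4

/-- the first set -/
def A1 (p w : ℕ) [Fact p.Prime] : Finset (ZMod (p ^ 2)) := univ.filter fun x => (V x - U x ^ 2).val < w

/-- the second set -/
def A2 (p w : ℕ) [Fact p.Prime] : Finset (ZMod (p ^ 2)) := univ.filter fun x => (U x - V x ^ 2).val < w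

theorem card_A1 {w : ℕ} (hw : w ≤ p) : (A1 p w).card = p * w := by
  unfold A1
  rw [card_filter, sum_UV (fun u v => if (v - u ^ 2).val < w then 1 else 0)]
  have h : ∀ u : ZMod p, ∑ v : ZMod p, (if (v - u ^ 2).val < w then 1 else 0) = w := by
    intro u
    have e := Equiv.sum_comp (Equiv.subRight (u ^ 2)) (fun h : ZMod p => if h.val < w then 1 else 0)
    simp only [Equiv.subRight_apply] at e
    rw [e, ← card_filter, card_W hw]
  rw [sum_congr rfl fun u _ => h u, sum_const, card_univ, ZMod.card, smul_eq_mul]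

theorem card_A2 {w : ℕ} (hw : w ≤ p) : (A2 p w).card = p * w := by
  unfold A2
  rw [card_filter, sum_UV (fun u v => if (u - v ^ 2).val < w then 1 else 0), sum_comm]
  have h : ∀ v : ZMod p, ∑ u : ZMod p, (if (u - v ^ 2).val < w then 1 else 0) = w := by
    intro v
    have e := Equiv.sum_comp (Equiv.subRight (v ^ 2)) (fun h : ZMod p => if h.val < w then 1 else 0)
    simp only [Equiv.subRight_apply] at e
    rw [e, ← card_filter, card_W hw]
  rw [sum_congr rfl fun u _ => h u, sum_const, card_univ, ZMod.card, smul_eq_mul]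

theorem corr1 (h2 : 2 < p) {w : ℕ} (hw : w ≤ p) (s : ZMod (p ^ 2)) (hs : U s ≠ 0) :
    (univ.filter fun x => x ∈ A1 p w ∧ x + s ∈ A1 p w).card ≤ w ^ 2 + p := by
  have e1 : (univ.filter fun x => x ∈ A1 p w ∧ x + s ∈ A1 p w).card =
      ∑ x : ZMod (p ^ 2), if (V x - U x ^ 2).val < w ∧
        ((V x + V s + ca (U x) (U s)) - (U x + U s) ^ 2).val < w then 1 else 0 := by
    rw [card_filter]
    refine sum_congr rfl fun x _ => ?_
    unfold A1
    simp only [mem_filter, mem_univ, true_and, U_add, V_add]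
  rw [e1, sum_UV (fun u v => if (v - u ^ 2).val < w ∧
        ((v + V s + ca u (U s)) - (u + U s) ^ 2).val < w then 1 else 0)]
  have e2 : ∀ u : ZMod p, ∑ v : ZMod p, (if (v - u ^ 2).val < w ∧
        ((v + V s + ca u (U s)) - (u + U s) ^ 2).val < w then 1 else 0) ≤
        M w (V s - 2 * u * U s - U s ^ 2) + 1 := by
    intro u
    refine le_trans (le_of_eq ?_) (M_ca w (V s - 2 * u * U s - U s ^ 2) u (U s))
    unfold M
    rw [card_filter]
    have e := Equiv.sum_comp (Equiv.subRight (u ^ 2)) (fun a : ZMod p => if a.val < w ∧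
      (a + (V s - 2 * u * U s - U s ^ 2 + ca u (U s))).val < w then 1 else 0)
    rw [← e]
    refine sum_congr rfl fun v _ => ?_
    simp only [Equiv.subRight_apply]
    have e3 : (v - u ^ 2) + (V s - 2 * u * U s - U s ^ 2 + ca u (U s)) =
        (v + V s + ca u (U s)) - (u + U s) ^ 2 := by
      ring
    rw [e3]
  refine (sum_le_sum fun u _ => e2 u).trans ?_
  rw [sum_add_distrib, Function.Bijective.sum_comp (bij_h h2 (V s) (U s) hs) (fun h => M w h),
    sum_M hw, sum_const, card_univ, ZMod.card, smul_eq_mul, mul_one]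

theorem corr2 (h2 : 2 < p) {w : ℕ} (hw : w ≤ p) (s : ZMod (p ^ 2)) (hs : U s = 0) (hs0 : s ≠ 0) :
    (univ.filter fun x => x ∈ A2 p w ∧ x + s ∈ A2 p w).card ≤ w ^ 2 + p := by
  have hV : V s ≠ 0 := by
    intro h
    apply hs0
    apply UV_inj
    · rw [hs]; unfold U; rw [ZMod.val_zero, Nat.cast_zero]
    · rw [h]; unfold V; rw [ZMod.val_zero, Nat.zero_div, Nat.cast_zero]
  have hca : ∀ u : ZMod p, ca u (U s) = 0 := by
    intro u
    unfold ca
    rw [hs, ZMod.val_zero, add_zero, if_neg (not_le.2 (ZMod.val_lt u))]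
  have e1 : (univ.filter fun x => x ∈ A2 p w ∧ x + s ∈ A2 p w).card =
      ∑ x : ZMod (p ^ 2), if (U x - V x ^ 2).val < w ∧
        (U x - (V x + V s) ^ 2).val < w then 1 else 0 := by
    rw [card_filter]
    refine sum_congr rfl fun x _ => ?_
    unfold A2
    simp only [mem_filter, mem_univ, true_and, U_add, V_add, hca, add_zero]
    rw [hs, add_zero]
  rw [e1, sum_UV (fun u v : ZMod p => if (u - v ^ 2).val < w ∧
        (u - (v + V s) ^ 2).val < w then 1 else 0), sum_comm]
  have e2 : ∀ v : ZMod p, ∑ u : ZMod p, (if (u - v ^ 2).val < w ∧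
        (u - (v + V s) ^ 2).val < w then 1 else 0) = M w (0 - 2 * v * V s - V s ^ 2) := by
    intro v
    unfold M
    rw [card_filter]
    have e := Equiv.sum_comp (Equiv.subRight (v ^ 2)) (fun a : ZMod p => if a.val < w ∧
      (a + (0 - 2 * v * V s - V s ^ 2)).val < w then 1 else 0)
    rw [← e]
    refine sum_congr rfl fun u _ => ?_
    simp only [Equiv.subRight_apply]
    have e3 : (u - v ^ 2) + (0 - 2 * v * V s - V s ^ 2) =
        u - (v + V s) ^ 2 := by
      ring
    rw [e3]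
  rw [sum_congr rfl fun v _ => e2 v,
    Function.Bijective.sum_comp (bij_h h2 0 (V s) hV) (fun h => M w h), sum_M hw]
  exact Nat.le_add_right _ _

/-- the arithmetic -/
theorem arith {m q p w Z S : ℕ} (hm : 0 < m) (hq : 0 < q) (hpw : p ≤ 4 * m * w)
    (hw : 8 * m * q ≤ w) (hZ : S + Z = p ^ 2)
    (h : (8 * m * q * (p * w)) ^ 2 ≤
      S * (8 * m * q * (p * w) + (8 * m * q) ^ 2 * (w ^ 2 + p))) : q * Z ≤ p ^ 2 := by
  obtain ⟨l, hl⟩ : ∃ l, l = 8 * m * q := ⟨_, rfl⟩
  rw [← hl] at h hw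
  have hl0 : 0 < l := by rw [hl]; positivity
  have hw0 : 0 < w := by omega
  -- Z * l * w^2 ≤ p^3 * (w + l)
  have h1 : l * w ^ 2 * Z ≤ p ^ 3 * (w + l) := by
    have h2 : l * (l * w ^ 2 * Z) ≤ l * (p ^ 3 * (w + l)) := by
      have h3 : (l * (p * w)) ^ 2 + Z * (l * (p * w) + l ^ 2 * (w ^ 2 + p)) ≤
          p ^ 2 * (l * (p * w) + l ^ 2 * (w ^ 2 + p)) := by
        rw [← hZ, add_mul]
        exact Nat.add_le_add_right h _
      nlinarith [Nat.zero_le (Z * (l * (p * w))), Nat.zero_le (Z * (l ^ 2 * p))]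
    exact Nat.le_of_mul_le_mul_left h2 hl0
  have h4 : q * (p * (w + l)) ≤ l * w ^ 2 := by
    have h5 : q * (p * (w + l)) ≤ q * (4 * m * w * (w + l)) := by gcongr
    have h6 : 2 * (q * (4 * m * w * (w + l))) = l * w * (w + l) := by rw [hl]; ring
    have h7 : l * w * (w + l) ≤ 2 * (l * w ^ 2) := by nlinarith [Nat.mul_le_mul_left (l * w) hw]
    omega
  have h8 : l * w ^ 2 * (q * Z) ≤ l * w ^ 2 * p ^ 2 := by
    calc l * w ^ 2 * (q * Z) = q * (l * w ^ 2 * Z) := by ring
      _ ≤ q * (p ^ 3 * (w + l)) := Nat.mul_le_mul_left _ h1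
      _ = p ^ 2 * (q * (p * (w + l))) := by ring
      _ ≤ p ^ 2 * (l * w ^ 2) := Nat.mul_le_mul_left _ h4
      _ = _ := by ring
  exact Nat.le_of_mul_le_mul_left h8 (by positivity)

/-- a set with good correlations -/
theorem cover {m q w : ℕ} (hm : 0 < m) (hq : 0 < q) (hpw : p ≤ 4 * m * w)
    (hw : 8 * m * q ≤ w) (A T J : Finset (ZMod (p ^ 2))) (hA : A.card = p * w) (hAJ : A ⊆ J)
    (hT : 8 * m * q ≤ T.card)
    (hc : ∀ s ∈ T, ∀ t ∈ T, s ≠ t →
      (univ.filter fun x => x ∈ A ∧ x + (s - t) ∈ A).card ≤ w ^ 2 + p) :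
    q * (univ.filter fun x => ∀ t ∈ T, x - t ∉ J).card ≤ p ^ 2 := by
  obtain ⟨T', hT', hT'c⟩ := exists_subset_card_eq hT
  have h := second A T' (w ^ 2 + p) fun s hs t ht hst => hc s (hT' hs) t (hT' ht) hst
  rw [hA, hT'c] at h
  have hZ : (univ.filter fun x : ZMod (p ^ 2) => ¬ ∀ t ∈ T', x - t ∉ A).card +
      (univ.filter fun x : ZMod (p ^ 2) => ∀ t ∈ T', x - t ∉ A).card = p ^ 2 := by
    rw [add_comm, card_filter_add_card_filter_not, card_univ, ZMod.card]
  have h1 := arith hm hq hpw hw hZ h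
  refine le_trans (Nat.mul_le_mul_left _ (card_le_card fun x hx => ?_)) h1
  rw [mem_filter] at hx ⊢
  exact ⟨mem_univ _, fun t ht hxt => hx.2 t (hT' ht) (hAJ hxt)⟩

theorem t : S_CL := by
  intro m q hm hq
  obtain ⟨l, hl⟩ : ∃ l, l = 8 * m * q := ⟨_, rfl⟩
  have hl0 : 0 < l := by rw [hl]; positivity
  refine ⟨l * l, by positivity, fun B => ?_⟩
  obtain ⟨p, hpB, hpp⟩ := Nat.exists_infinite_primes (B + 3 + 64 * m * m * q)
  have : Fact p.Prime := ⟨hpp⟩
  have hp2 : 2 < p := by omega
  have hpB2 : B ≤ p := by omega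
  have hpm : 64 * m * m * q ≤ p := by omega
  obtain ⟨w, hwdef⟩ : ∃ w, w = p / (2 * m) := ⟨_, rfl⟩
  have hw1 : 2 * m * w ≤ p := by rw [hwdef]; exact Nat.mul_div_le _ _
  have hwp : w ≤ p := le_trans (Nat.le_mul_of_pos_left _ (by positivity)) hw1
  have hw2 : p < 2 * m * (w + 1) := by
    rw [hwdef]
    have := Nat.lt_mul_div_succ p (show 0 < 2 * m by positivity)
    exact this
  have hw3 : l ≤ w := by
    rw [hwdef, Nat.le_div_iff_mul_le (by positivity), hl]
    calc 8 * m * q * (2 * m) ≤ 64 * m * m * q := by nlinarith [Nat.zero_le (m * m * q)]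
      _ ≤ p := hpm
  have hw0 : 1 ≤ w := le_trans hl0 hw3
  have hpw : p ≤ 4 * m * w := by nlinarith
  have hb : B ≤ p ^ 2 := le_trans hpB2 (Nat.le_self_pow two_ne_zero p)
  refine ⟨p ^ 2, hb, by positivity, {I : ℤ | ((I : ZMod (p ^ 2)) ∈ A1 p w ∪ A2 p w)}, ?_, ?_, ?_⟩
  · intro I
    have e : ((I + ((p ^ 2 : ℕ) : ℤ) : ℤ) : ZMod (p ^ 2)) = (I : ZMod (p ^ 2)) := by
      rw [Int.cast_add, Int.cast_natCast, ZMod.natCast_self, add_zero]
    rw [Set.mem_ofPred_eq, Set.mem_ofPred_eq, e]
  · -- small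
    have h1 : {I : ℤ | 0 ≤ I ∧ I < ((p ^ 2 : ℕ) : ℤ) ∧
        I ∈ {I : ℤ | ((I : ZMod (p ^ 2)) ∈ A1 p w ∪ A2 p w)}}.ncard ≤ (A1 p w ∪ A2 p w).card := by
      rw [← Set.ncard_coe_finset]
      refine Set.ncard_le_ncard_of_injOn (fun I : ℤ => (I : ZMod (p ^ 2))) (fun I hI => hI.2.2)
        (fun I hI I' hI' h => ?_) (Finset.finite_toSet _)
      rw [ZMod.intCast_eq_intCast_iff'] at h
      rwa [Int.emod_eq_of_lt hI.1 hI.2.1, Int.emod_eq_of_lt hI'.1 hI'.2.1] at h
    have h2 : (A1 p w ∪ A2 p w).card ≤ 2 * (p * w) := by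
      refine (card_union_le _ _).trans ?_
      rw [card_A1 hwp, card_A2 hwp]
      omega
    calc m * {I : ℤ | 0 ≤ I ∧ I < ((p ^ 2 : ℕ) : ℤ) ∧
        I ∈ {I : ℤ | ((I : ZMod (p ^ 2)) ∈ A1 p w ∪ A2 p w)}}.ncard ≤ m * (2 * (p * w)) :=
          Nat.mul_le_mul_left _ (h1.trans h2)
      _ = p * (2 * m * w) := by ring
      _ ≤ p * p := Nat.mul_le_mul_left _ hw1
      _ = p ^ 2 := by ring
  · -- covering
    intro T hT hTc
    obtain ⟨T', hT'⟩ : ∃ T' : Finset (ZMod (p ^ 2)), T' = T.image (fun I : ℤ => (I : ZMod (p ^ 2))) :=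
      ⟨_, rfl⟩
    have hT'c : T'.card = T.card := by
      rw [hT']
      refine card_image_of_injOn fun I hI I' hI' h => ?_
      by_contra hne
      apply hT I hI I' hI' hne
      have h' : ((I : ℤ) : ZMod (p ^ 2)) = (I' : ZMod (p ^ 2)) := h
      have h3 := (ZMod.intCast_eq_intCast_iff_dvd_sub I' I (p ^ 2)).1 h'.symm
      exact h3
    have h1 : {I : ℤ | 0 ≤ I ∧ I < ((p ^ 2 : ℕ) : ℤ) ∧ ∀ t ∈ T, I - t ∉
        {I : ℤ | ((I : ZMod (p ^ 2)) ∈ A1 p w ∪ A2 p w)}}.ncard ≤
        (univ.filter fun x : ZMod (p ^ 2) => ∀ t ∈ T', x - t ∉ A1 p w ∪ A2 p w).card := by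
      rw [← Set.ncard_coe_finset]
      refine Set.ncard_le_ncard_of_injOn (fun I : ℤ => (I : ZMod (p ^ 2))) (fun I hI => ?_)
        (fun I hI I' hI' h => ?_) (Finset.finite_toSet _)
      · rw [mem_coe, mem_filter]
        refine ⟨mem_univ _, fun t ht => ?_⟩
        rw [hT', mem_image] at ht
        obtain ⟨t0, ht0, rfl⟩ := ht
        have h3 := hI.2.2 t0 ht0
        rw [Set.mem_ofPred_eq, Int.cast_sub] at h3
        exact h3
      · rw [ZMod.intCast_eq_intCast_iff'] at h
        rwa [Int.emod_eq_of_lt hI.1 hI.2.1, Int.emod_eq_of_lt hI'.1 hI'.2.1] at h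
    refine le_trans (Nat.mul_le_mul_left _ h1) ?_
    rw [← hT'c] at hTc
    rw [hl] at hw3
    by_cases hcase : l ≤ (T'.image U).card
    · -- different first digits
      obtain ⟨T'', hT''⟩ : ∃ T'' : Finset (ZMod (p ^ 2)), T'' ⊆ T' ∧ T''.card = (T'.image U).card ∧
          Set.InjOn (U : ZMod (p ^ 2) → ZMod p) T'' := by
        have hch : ∀ u ∈ T'.image U, ∃ x ∈ T', U x = u := fun u hu => mem_image.1 hu
        choose! g hg1 hg2 using hch
        refine ⟨(T'.image U).image g, ?_, ?_, ?_⟩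
        · intro x hx
          obtain ⟨u, hu, rfl⟩ := mem_image.1 hx
          exact hg1 u hu
        · refine card_image_of_injOn fun u hu v hv h => ?_
          rw [← hg2 u hu, ← hg2 v hv, h]
        · intro x hx y hy h
          obtain ⟨u, hu, rfl⟩ := mem_image.1 (mem_coe.1 hx)
          obtain ⟨v, hv, rfl⟩ := mem_image.1 (mem_coe.1 hy)
          rw [hg2 u hu, hg2 v hv] at h
          rw [h]
      obtain ⟨hs1, hs2, hs3⟩ := hT''
      have h4 := cover hm hq hpw hw3 (A1 p w) T'' (A1 p w ∪ A2 p w) (card_A1 hwp)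
        subset_union_left (by rw [hs2, ← hl]; exact hcase) (fun s hs t ht hst => by
          refine corr1 hp2 hwp _ ?_
          intro h0
          apply hst
          apply hs3 hs ht
          have h5 : U s = U (s - t + t) := by rw [sub_add_cancel]
          rw [h5, U_add, h0, zero_add])
      refine le_trans (Nat.mul_le_mul_left _ (card_le_card fun x hx => ?_)) h4
      rw [mem_filter] at hx ⊢
      exact ⟨mem_univ _, fun t ht => hx.2 t (hs1 ht)⟩
    · -- many equal first digits
      have h5 : (T'.image U).card * (l - 1) < T'.card := by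
        refine lt_of_lt_of_le ?_ hTc
        have h6 : (T'.image U).card ≤ l - 1 := by omega
        calc (T'.image U).card * (l - 1) ≤ (l - 1) * (l - 1) := Nat.mul_le_mul_right _ h6
          _ < l * l := Nat.mul_self_lt_mul_self (by omega)
      obtain ⟨y, hy, hy2⟩ := exists_lt_card_fiber_of_mul_lt_card_of_maps_to
        (fun x hx => mem_image_of_mem U hx) h5
      have h4 := cover hm hq hpw hw3 (A2 p w) (T'.filter fun x => U x = y) (A1 p w ∪ A2 p w)
        (card_A2 hwp) subset_union_right (by rw [← hl]; omega) (fun s hs t ht hst => by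
          have h6 : U (s - t) = 0 := by
            have h7 : U s = U (s - t) + U t := by rw [← U_add, sub_add_cancel]
            rw [(mem_filter.1 hs).2, (mem_filter.1 ht).2] at h7
            exact left_eq_add.1 (h7.trans (add_comm _ _))
          exact corr2 hp2 hwp _ h6 (sub_ne_zero.2 hst))
      refine le_trans (Nat.mul_le_mul_left _ (card_le_card fun x hx => ?_)) h4
      rw [mem_filter] at hx ⊢
      exact ⟨mem_univ _, fun t ht => hx.2 t (mem_filter.1 ht).1⟩

end Pool.Agent.Y344.NA
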